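import Mathlib
import Pool.Agent.H4R3.RCf

/-!
# Reduced curves with a point of multiplicity `t ≥ 3`: the statement of Q1 fails for EVERY `t ≥ 3`

Take `r = 8 + t` very general points `p_1, …, p_8, q_1, …, q_t` of the plane, `d = 3 t`, multiplicity
`t` at each `p_i` and multiplicity `1` at each `q_j`.  The cubics through `p_1, …, p_8` form a pencil,
which has a ninth base point `O`.  Let `N_j` be the cubic of the pencil through `q_j`.  Then
`C = N_1 + ⋯ + N_t` is a reduced member of `|3 t H - t ∑ E_i - ∑ E_{8 + j}|`, and it has a point of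
multiplicity `t` at `O`.  But
`binom(3t+2, 2) - 8 binom(t+1, 2) - t = binom(t, 2) + 1 ≤ binom(t+1, 2) - 2` as soon as `t ≥ 3`.

The definitions `mult`, `pt` and `HasReducedCurve` are in `Pool.Agent.H4R3.RCa`, `RCb`, `RCd`.
-/

open MvPolynomial H4RC

namespace Pool.Agent.Results.MP_b1ca72_ag.BasePointOfCubics

/-- **Main theorem.**  For every `t ≥ 3` there are `r`, `d ≥ 1` and `m_1, …, m_r ≥ 0` satisfying the
numerical inequality of the question such that the set of configurations `(p_1, …, p_r)` of points
of the plane for which `|d H - ∑ m_i E_i|` contains a REDUCED curve with a point of multiplicity `t`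
is not contained in any countable union of proper Zariski-closed subsets: given any countable set
`S` of nonzero polynomials in the `2 r` affine coordinates of the points, there is a configuration
of distinct points at which no element of `S` vanishes and for which such a reduced curve exists. -/
theorem result (t : ℕ) (ht : 3 ≤ t) :
    ∃ (r d : ℕ) (m : Fin r → ℕ), 1 ≤ d ∧
      (((d + 2).choose 2 : ℕ) : ℤ) - ∑ i, (((m i + 1).choose 2 : ℕ) : ℤ)
        ≤ max ((((t + 1).choose 2 : ℕ) : ℤ) - 2) 0 ∧
      ∀ S : Set (MvPolynomial (Fin r × Fin 2) ℂ), S.Countable →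
        (0 : MvPolynomial (Fin r × Fin 2) ℂ) ∉ S →
        ∃ p : Fin r → Fin 2 → ℂ,
          (∀ g ∈ S, MvPolynomial.eval (fun ij : Fin r × Fin 2 => p ij.1 ij.2) g ≠ 0) ∧
          Function.Injective p ∧ HasReducedCurve r d t m p := by
  refine ⟨8 + t, 3 * t, Fin.addCases (fun _ => t) (fun _ => 1), by omega, ?_, ?_⟩
  · apply le_max_of_le_left
    have h1 : ∑ i : Fin (8 + t),
        (((((Fin.addCases (fun _ => t) (fun _ => 1) : Fin (8 + t) → ℕ) i + 1).choose 2 : ℕ)) : ℤ)
          = 8 * (((t + 1).choose 2 : ℕ) : ℤ) + t := by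
      rw [Fin.sum_univ_add]
      simp
    rw [h1]
    have h2 : (((3 * t + 2).choose 2 : ℕ) : ℚ) - (8 * (((t + 1).choose 2 : ℕ) : ℚ) + t)
        ≤ (((t + 1).choose 2 : ℕ) : ℚ) - 2 := by
      rw [Nat.cast_choose_two, Nat.cast_choose_two]
      push_cast
      have : (3 : ℚ) ≤ t := by exact_mod_cast ht
      nlinarith
    exact_mod_cast h2
  · intro S hS h0
    obtain ⟨P0, hP0⟩ := open_configs t (by omega)
    exact avoid hP0 S hS h0

end Pool.Agent.Results.MP_b1ca72_ag.BasePointOfCubics
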